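import Pool.Agent.helper19.HF.SpecA

set_option autoImplicit false

namespace Pool.Agent.HF

open Finset

theorem COR : COR_stmt := by
  classical
  intro g κ M₀ hκ h
  have h' : ∀ M : ℕ, M₀ ≤ M → ∀ u : ℕ, (1 / 2 + κ) * M ≤ (#{t ∈ Ioc u (u + M) | g t} : ℝ) := by
    intro M hM u
    have h1 := h M hM u
    refine h1.trans (le_of_eq ?_)
    congr 1
  clear h
  constructor
  · refine ⟨max (M₀ + 1) 2, fun N hN => ?_⟩
    have hN1 : M₀ + 1 ≤ N := (le_max_left _ _).trans hN
    have hN2 : 2 ≤ N := (le_max_right _ _).trans hN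
    obtain ⟨M, rfl⟩ : ∃ M, N = M + 1 := ⟨N - 1, by omega⟩
    have hM := h' M (by omega) 0
    rw [zero_add] at hM
    obtain ⟨S, hS⟩ : ∃ S : Finset ℕ, S = {t ∈ Ioc 0 M | g t} := ⟨_, rfl⟩
    rw [← hS] at hM
    have hMp : (0 : ℝ) < M := by
      have : 0 < M := by omega
      exact_mod_cast this
    have hSm : ∀ t ∈ S, 1 ≤ t ∧ t ≤ M ∧ g t := by
      intro t ht
      rw [hS, Finset.mem_filter, Finset.mem_Ioc] at ht
      exact ⟨by omega, ht.1.2, ht.2⟩
    have hinj : Set.InjOn (fun t : ℕ => M + 1 - t) (S : Set ℕ) := by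
      intro x hx y hy hxy
      have h1 := hSm x hx
      have h2 := hSm y hy
      have hxy' : M + 1 - x = M + 1 - y := hxy
      omega
    have hcard : (S.image fun t : ℕ => M + 1 - t).card = S.card := Finset.card_image_of_injOn hinj
    have hne : ¬ Disjoint S (S.image fun t : ℕ => M + 1 - t) := by
      intro hdis
      have h1 : (S ∪ S.image fun t : ℕ => M + 1 - t) ⊆ Ioc 0 M := by
        intro t ht
        rw [Finset.mem_union, Finset.mem_image] at ht
        rw [Finset.mem_Ioc]
        rcases ht with ht | ⟨x, hx, rfl⟩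
        · have h2 := hSm t ht
          omega
        · have h2 := hSm x hx
          omega
      have h2 := Finset.card_le_card h1
      rw [Finset.card_union_of_disjoint hdis, hcard, Nat.card_Ioc, Nat.sub_zero] at h2
      have h3 : (S.card : ℝ) + S.card ≤ M := by exact_mod_cast h2
      have h4 : 0 < κ * M := by positivity
      linarith
    rw [Finset.not_disjoint_iff] at hne
    obtain ⟨t, ht, ht'⟩ := hne
    rw [Finset.mem_image] at ht'
    obtain ⟨t', ht1, ht2⟩ := ht'
    have h1 := hSm t ht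
    have h2 := hSm t' ht1
    exact ⟨t, t', h1.1, h2.1, by omega, h1.2.2, h2.2.2⟩
  · intro s M hM u
    have hA := h' M hM u
    have hB := h' M hM (u + s)
    obtain ⟨A, hAd⟩ : ∃ A : Finset ℕ, A = {t ∈ Ioc u (u + M) | g t} := ⟨_, rfl⟩
    obtain ⟨B, hBd⟩ : ∃ B : Finset ℕ, B = {t ∈ Ioc u (u + M) | g (t + s)} := ⟨_, rfl⟩
    have hAI : A ∩ B = {t ∈ Ioc u (u + M) | g t ∧ g (t + s)} := by
      ext t
      rw [Finset.mem_inter, hAd, hBd, Finset.mem_filter, Finset.mem_filter, Finset.mem_filter]
      tauto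
    have hBc : #{t ∈ Ioc (u + s) (u + s + M) | g t} ≤ #B := by
      apply Finset.card_le_card_of_injOn (fun t : ℕ => t - s)
      · intro t ht
        have ht' := Finset.mem_filter.1 (Finset.mem_coe.1 ht)
        rw [Finset.mem_Ioc] at ht'
        rw [Finset.mem_coe, hBd, Finset.mem_filter, Finset.mem_Ioc]
        have e : t - s + s = t := by omega
        show (u < t - s ∧ t - s ≤ u + M) ∧ g (t - s + s)
        rw [e]
        exact ⟨by omega, ht'.2⟩
      · intro x hx y hy hxy
        have hx' := Finset.mem_Ioc.1 (Finset.mem_filter.1 (Finset.mem_coe.1 hx)).1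
        have hy' := Finset.mem_Ioc.1 (Finset.mem_filter.1 (Finset.mem_coe.1 hy)).1
        have hxy' : x - s = y - s := hxy
        omega
    have hun : #(A ∪ B) ≤ M := by
      have h1 : A ∪ B ⊆ Ioc u (u + M) := by
        intro t ht
        rw [Finset.mem_union, hAd, hBd, Finset.mem_filter, Finset.mem_filter] at ht
        rcases ht with ht | ht
        · exact ht.1
        · exact ht.1
      have h2 := Finset.card_le_card h1
      rw [Nat.card_Ioc] at h2
      omega
    have hie := Finset.card_union_add_card_inter A B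
    rw [← hAd] at hA
    have hBc' : (#{t ∈ Ioc (u + s) (u + s + M) | g t} : ℝ) ≤ #B := by exact_mod_cast hBc
    have hun' : (#(A ∪ B) : ℝ) ≤ M := by exact_mod_cast hun
    have hie' : (#(A ∪ B) : ℝ) + #(A ∩ B) = #A + #B := by exact_mod_cast hie
    have hfin : 2 * κ * M ≤ (#(A ∩ B) : ℝ) := by linarith
    rw [hAI] at hfin
    refine hfin.trans (le_of_eq ?_)
    congr 1

end Pool.Agent.HF
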